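import Mathlib
import Pool.Agent.H843R3.Had2.Cone

set_option autoImplicit false

/-!
Planar convex bodies: three directions illuminate every planar convex body which is not a
parallelogram. Part 1: the three directions.
-/

open Set Topology Real
open Pool.Agent.H843R3.Had2

namespace Pool.Agent.TH438.Levi

/-- the plane -/
abbrev E2 : Type := EuclideanSpace ℝ (Fin 2)

/-- the linear form with the unit normal vector of angle `t` -/
noncomputable def ip (t : ℝ) (p : E2) : ℝ := cos t * p 0 + sin t * p 1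

/-- `p` is a point of `K` with the outer normal vector of angle `t` -/
def F (K : Set E2) (t : ℝ) (p : E2) : Prop := p ∈ K ∧ ∀ q ∈ K, ip t q ≤ ip t p

/-- some point has both normals -/
def V (K : Set E2) (x y : ℝ) : Prop := ∃ p, F K x p ∧ F K y p

theorem ip_add_pi (t : ℝ) (p : E2) : ip (t + π) p = -ip t p := by
  simp only [ip, cos_add_pi, sin_add_pi]; ring

theorem ip_sub_pi (t : ℝ) (p : E2) : ip (t - π) p = -ip t p := by
  simp only [ip, cos_sub_pi, sin_sub_pi]; ring

theorem ip_two_pi (t : ℝ) (p : E2) : ip (t + 2 * π) p = ip t p := by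
  simp only [ip, cos_add_two_pi, sin_add_two_pi]

theorem F_two_pi {K : Set E2} {t : ℝ} {p : E2} : F K (t + 2 * π) p ↔ F K t p := by
  simp only [F, ip_two_pi]

theorem F_int {K : Set E2} {t : ℝ} {p : E2} (n : ℤ) : F K (t + n • (2 * π)) p ↔ F K t p := by
  have h : ∀ q, ip (t + n • (2 * π)) q = ip t q := by
    intro q
    simp only [ip]
    rw [zsmul_eq_mul, cos_add_int_mul_two_pi, sin_add_int_mul_two_pi]
  simp only [F, h]

theorem V_two_pi {K : Set E2} {x y : ℝ} : V K (x + 2 * π) (y + 2 * π) ↔ V K x y := by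
  simp only [V, F_two_pi]

theorem ip_mid (x y t : ℝ) (p : E2) :
    sin (y - x) * ip t p = sin (y - t) * ip x p + sin (t - x) * ip y p := by
  simp only [ip, sin_sub]; ring

theorem F_mid {K : Set E2} {x y t : ℝ} {p : E2} (hx : F K x p) (hy : F K y p) (h1 : x ≤ t)
    (h2 : t ≤ y) (h3 : y < x + π) : F K t p := by
  rcases (h1.trans h2).eq_or_lt with h | h
  · have : t = x := by linarith
    rwa [this]
  refine ⟨hx.1, fun q hq => ?_⟩
  have h4 : 0 < sin (y - x) := sin_pos_of_pos_of_lt_pi (by linarith) (by linarith)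
  have h5 : 0 ≤ sin (y - t) := sin_nonneg_of_nonneg_of_le_pi (by linarith) (by linarith)
  have h6 : 0 ≤ sin (t - x) := sin_nonneg_of_nonneg_of_le_pi (by linarith) (by linarith)
  have h7 := ip_mid x y t p
  have h8 := ip_mid x y t q
  have h9 := mul_le_mul_of_nonneg_left (hx.2 q hq) h5
  have h10 := mul_le_mul_of_nonneg_left (hy.2 q hq) h6
  refine le_of_mul_le_mul_left ?_ h4
  linarith

theorem V_mid {K : Set E2} {x y s t : ℝ} (h : V K x y) (h1 : x ≤ s) (h2 : s ≤ t) (h3 : t ≤ y)
    (h4 : y < x + π) : V K s t := by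
  obtain ⟨p, hx, hy⟩ := h
  exact ⟨p, F_mid hx hy h1 (h2.trans h3) h4, F_mid hx hy (h1.trans h2) h3 h4⟩

theorem ext_ip {x y : ℝ} (h : sin (y - x) ≠ 0) {p q : E2} (h1 : ip x p = ip x q)
    (h2 : ip y p = ip y q) : p = q := by
  have h3 : (p 0 - q 0) * sin (y - x) = 0 := by
    simp only [ip] at h1 h2
    rw [sin_sub]
    linear_combination sin y * h1 - sin x * h2
  have h4 : (p 1 - q 1) * sin (y - x) = 0 := by
    simp only [ip] at h1 h2
    rw [sin_sub]
    linear_combination -cos y * h1 + cos x * h2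
  have h5 : p 0 = q 0 := by
    have := (mul_eq_zero.1 h3).resolve_right h
    linarith
  have h6 : p 1 = q 1 := by
    have := (mul_eq_zero.1 h4).resolve_right h
    linarith
  ext i
  fin_cases i
  · exact h5
  · exact h6

theorem F_unique {K : Set E2} {x y : ℝ} {p q : E2} (hx : x < y) (hy : y < x + π)
    (h1 : F K x p) (h2 : F K y p) (h3 : F K x q) (h4 : F K y q) : p = q := by
  have h5 : 0 < sin (y - x) := sin_pos_of_pos_of_lt_pi (by linarith) (by linarith)
  exact ext_ip h5.ne' (le_antisymm (h3.2 p h1.1) (h1.2 q h3.1))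
    (le_antisymm (h4.2 p h2.1) (h2.2 q h4.1))

theorem no_pi {K : Set E2} (hi : (interior K).Nonempty) {x : ℝ} {p : E2} (h1 : F K x p)
    (h2 : F K (x + π) p) : False := by
  obtain ⟨o, ho⟩ := hi
  have h3 : ∀ q ∈ K, ip x q = ip x p := by
    intro q hq
    have h4 := h1.2 q hq
    have h5 := h2.2 q hq
    rw [ip_add_pi, ip_add_pi] at h5
    linarith
  obtain ⟨ε, hε, h6⟩ := Co.of_interior ho (!₂[cos x, sin x] : E2)
  have h7 := h3 _ (interior_subset h6)
  have h8 := h3 _ (interior_subset ho)
  have h9 : ip x (o + ε • (!₂[cos x, sin x] : E2)) = ip x o + ε := by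
    simp only [ip, PiLp.add_apply, PiLp.smul_apply, smul_eq_mul]
    simp only [Fin.isValue, Matrix.cons_val_zero, Matrix.cons_val_one,
      Matrix.cons_val_fin_one]
    have := cos_sq_add_sin_sq x
    linear_combination ε * this
  rw [h9] at h7
  linarith

theorem not_V_pi {K : Set E2} (hi : (interior K).Nonempty) {x : ℝ} : ¬ V K x (x + π) := by
  rintro ⟨p, h1, h2⟩
  exact no_pi hi h1 h2

theorem tendsto_ip {z : ℕ → ℝ} {p : ℕ → E2} {a : ℝ} {b : E2}
    (hz : Filter.Tendsto z Filter.atTop (𝓝 a)) (hp : Filter.Tendsto p Filter.atTop (𝓝 b)) :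
    Filter.Tendsto (fun n => ip (z n) (p n)) Filter.atTop (𝓝 (ip a b)) := by
  have h0 : Filter.Tendsto (fun n => p n 0) Filter.atTop (𝓝 (b 0)) :=
    ((by fun_prop : Continuous fun q : E2 => q 0).tendsto b).comp hp
  have h1 : Filter.Tendsto (fun n => p n 1) Filter.atTop (𝓝 (b 1)) :=
    ((by fun_prop : Continuous fun q : E2 => q 1).tendsto b).comp hp
  have hc : Filter.Tendsto (fun n => cos (z n)) Filter.atTop (𝓝 (cos a)) :=
    (continuous_cos.tendsto a).comp hz
  have hs : Filter.Tendsto (fun n => sin (z n)) Filter.atTop (𝓝 (sin a)) :=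
    (continuous_sin.tendsto a).comp hz
  exact (hc.mul h0).add (hs.mul h1)

theorem F_lim {K : Set E2} {z : ℕ → ℝ} {p : ℕ → E2} {a : ℝ} {b : E2}
    (hz : Filter.Tendsto z Filter.atTop (𝓝 a)) (hp : Filter.Tendsto p Filter.atTop (𝓝 b))
    (h : ∀ n, F K (z n) (p n)) (hb : b ∈ K) : F K a b :=
  ⟨hb, fun q hq => le_of_tendsto_of_tendsto' (tendsto_ip hz tendsto_const_nhds)
    (tendsto_ip hz hp) fun n => (h n).2 q hq⟩

theorem V_closed {K : Set E2} (hK : IsCompact K) : IsClosed {z : ℝ × ℝ | V K z.1 z.2} := by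
  refine IsSeqClosed.isClosed ?_
  intro z a hz ha
  have hz' : ∀ n, ∃ p, F K (z n).1 p ∧ F K (z n).2 p := hz
  choose p hp1 hp2 using hz'
  obtain ⟨b, hb, φ, hφ, hlim⟩ := hK.tendsto_subseq fun n => (hp1 n).1
  have ha' : Filter.Tendsto (fun n => z (φ n)) Filter.atTop (𝓝 a) := ha.comp hφ.tendsto_atTop
  have h1 : Filter.Tendsto (fun n => (z (φ n)).1) Filter.atTop (𝓝 a.1) :=
    (continuous_fst.tendsto a).comp ha'
  have h2 : Filter.Tendsto (fun n => (z (φ n)).2) Filter.atTop (𝓝 a.2) :=
    (continuous_snd.tendsto a).comp ha'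
  exact ⟨b, F_lim h1 hlim (fun n => hp1 (φ n)) hb, F_lim h2 hlim (fun n => hp2 (φ n)) hb⟩

/-- the direction orthogonal to the normal of angle `x` -/
noncomputable def dir (x : ℝ) : E2 := !₂[sin x, -cos x]

theorem dir_two_pi (x : ℝ) : dir (x + 2 * π) = dir x := by
  simp only [dir, sin_add_two_pi, cos_add_two_pi]

theorem ip_dir (t x : ℝ) : ip t (dir x) = -sin (t - x) := by
  simp only [ip, dir, sin_sub]
  simp only [Fin.isValue, Matrix.cons_val_zero, Matrix.cons_val_one,
    Matrix.cons_val_fin_one]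
  ring

/-- If a direction does not point into the interior, there is a normal forming a non-obtuse angle
with it. -/
theorem exists_normal {K : Set E2} (hK : Convex ℝ K) (hKc : IsCompact K)
    (hi : (interior K).Nonempty) {p w : E2} (hp : p ∈ K) (h : ¬ Co K p w) :
    ∃ t, F K t p ∧ 0 ≤ ip t w := by
  classical
  set R : Set E2 := (fun e : ℝ => p + e • w) '' Ioi 0 with hR
  have hRc : Convex ℝ R := by
    rintro _ ⟨a, ha, rfl⟩ _ ⟨b, hb, rfl⟩ s t hs ht hst
    refine ⟨s * a + t * b, ?_, ?_⟩
    · rcases hs.eq_or_lt with h0 | h0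
      · have : t = 1 := by linarith
        rw [← h0, this]; simpa using hb
      · have h1 : 0 < s * a := mul_pos h0 ha
        have h2 : 0 ≤ t * b := mul_nonneg ht (le_of_lt hb)
        exact mem_Ioi.2 (by linarith)
    · have h1 : p = s • p + t • p := by rw [← add_smul, hst, one_smul]
      simp only
      nth_rewrite 1 [h1]
      module
  have hdis : Disjoint (interior K) R := by
    rw [Set.disjoint_left]
    rintro _ hx ⟨e, he, rfl⟩
    exact h ⟨e, he, hx⟩
  obtain ⟨f, u, hf1, hf2⟩ := geometric_hahn_banach_open hK.interior isOpen_interior hRc hdis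
  have hKu : ∀ q ∈ K, f q ≤ u := by
    intro q hq
    have h1 : q ∈ closure (interior K) := by
      rw [hK.closure_interior_eq_closure_of_nonempty_interior hi]
      exact subset_closure hq
    exact closure_minimal (fun x hx => (hf1 x hx).le)
      (isClosed_le f.continuous continuous_const) h1
  have hpu : u ≤ f p := by
    by_contra hcon
    push Not at hcon
    -- take a small multiple of `w`
    have h1 : ∀ e : ℝ, 0 < e → u ≤ f p + e * f w := by
      intro e he
      have := hf2 _ ⟨e, he, rfl⟩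
      simpa using this
    rcases le_or_gt (f w) 0 with h2 | h2
    · have := h1 1 one_pos
      linarith
    · have h3 := h1 ((u - f p) / (2 * f w)) (div_pos (by linarith) (by linarith))
      have h4 : (u - f p) / (2 * f w) * f w = (u - f p) / 2 := by field_simp
      rw [h4] at h3
      linarith
  have hfp : f p = u := le_antisymm (hKu p hp) hpu
  have hfw : 0 ≤ f w := by
    have := hf2 _ ⟨1, mem_Ioi.2 one_pos, rfl⟩
    simp only [one_smul, map_add] at this
    linarith
  -- polar coordinates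
  set c : ℂ := ⟨f (EuclideanSpace.single 0 1), f (EuclideanSpace.single 1 1)⟩ with hc
  have hfc : ∀ q : E2, f q = c.re * q 0 + c.im * q 1 := by
    intro q
    have h1 : q = q 0 • EuclideanSpace.single 0 1 + q 1 • EuclideanSpace.single 1 1 := by
      ext i
      fin_cases i <;> simp
    have h2 := congrArg f h1
    rw [map_add, map_smul, map_smul, smul_eq_mul, smul_eq_mul] at h2
    rw [h2]
    simp only [hc]
    ring
  have hc0 : c ≠ 0 := by
    intro h0
    obtain ⟨o, ho⟩ := hi
    have h1 := hf1 o ho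
    rw [hfc o, h0] at h1
    rw [hfc p, h0] at hfp
    simp at h1 hfp
    linarith
  have hn : 0 < ‖c‖ := norm_pos_iff.2 hc0
  have hre : c.re = ‖c‖ * cos c.arg := by
    rw [Complex.norm_mul_cos_arg]
  have him : c.im = ‖c‖ * sin c.arg := by
    rw [Complex.norm_mul_sin_arg]
  have hfi : ∀ q : E2, f q = ‖c‖ * ip c.arg q := by
    intro q
    rw [hfc q, hre, him]
    simp only [ip]
    rw [← hre, ← him, hre, him]
    ring
  refine ⟨c.arg, ⟨hp, fun q hq => ?_⟩, ?_⟩
  · have h1 := hKu q hq
    rw [← hfp, hfi, hfi] at h1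
    exact le_of_mul_le_mul_left h1 hn
  · rw [hfi] at hfw
    exact nonneg_of_mul_nonneg_right hfw hn

/-- the same with a representative of the angle -/
theorem exists_normal' {K : Set E2} (hK : Convex ℝ K) (hKc : IsCompact K)
    (hi : (interior K).Nonempty) {p : E2} {x : ℝ} (hp : p ∈ K) (h : ¬ Co K p (dir x)) :
    ∃ t, F K t p ∧ x + π ≤ t ∧ t ≤ x + 2 * π := by
  obtain ⟨t, ht, h1⟩ := exists_normal hK hKc hi hp h
  have h2pi : (0 : ℝ) < 2 * π := by positivity
  set s := toIocMod h2pi x t with hs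
  have h3 : s = t + (-toIocDiv h2pi x t) • (2 * π) := by
    rw [hs, toIocMod, neg_smul, sub_eq_add_neg]
  have h4 := toIocMod_mem_Ioc h2pi x t
  rw [← hs] at h4
  have h5 : F K s p := by rw [h3]; exact (F_int _).2 ht
  have h6 : ip s (dir x) = ip t (dir x) := by
    rw [h3]
    simp only [ip]
    rw [zsmul_eq_mul, cos_add_int_mul_two_pi, sin_add_int_mul_two_pi]
  rw [← h6, ip_dir] at h1
  refine ⟨s, h5, ?_, h4.2⟩
  by_contra hcon
  push Not at hcon
  have h7 : 0 < sin (s - x) := sin_pos_of_pos_of_lt_pi (by linarith [h4.1]) (by linarith)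
  linarith

variable {K : Set E2} (hK : Convex ℝ K) (hKc : IsCompact K) (hi : (interior K).Nonempty)

include hK hKc hi

theorem good {x y z : ℝ} (hxy : x < y) (hzx : z < x + π) (h1 : ¬ V K x y)
    (h2 : ¬ V K z (x + π)) {t : ℝ} {p : E2} (ht : F K t p) (hty : y ≤ t) (htz : t ≤ z) :
    Co K p (dir x) := by
  by_contra hcon
  obtain ⟨s, hs, hs1, hs2⟩ := exists_normal' hK hKc hi ht.1 hcon
  rcases lt_trichotomy s (t + π) with h | h | h
  · exact h2 (V_mid ⟨p, ht, hs⟩ htz hzx.le hs1 h)
  · rw [h] at hs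
    exact no_pi hi ht hs
  · have h3 : F K (s - 2 * π) p := by
      rw [← F_two_pi]; simpa using hs
    exact h1 (V_mid ⟨p, h3, ht⟩ (by linarith) hxy.le hty (by linarith))

theorem side {x y z : ℝ} (hyz : y < z) (hzx : z < x + π)
    (h2 : ¬ V K z (x + π)) {t : ℝ} {p : E2} (ht : F K t p) (htx : x ≤ t) (hty : t ≤ y) :
    Co K p (dir x) ∨ F K x p := by
  by_contra hcon
  push Not at hcon
  obtain ⟨s, hs, hs1, hs2⟩ := exists_normal' hK hKc hi ht.1 hcon.1
  rcases lt_trichotomy s (t + π) with h | h | h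
  · exact h2 (V_mid ⟨p, ht, hs⟩ (hty.trans hyz.le) hzx.le hs1 h)
  · rw [h] at hs
    exact no_pi hi ht hs
  · have h3 : F K (s - 2 * π) p := by
      rw [← F_two_pi]; simpa using hs
    exact hcon.2 (F_mid h3 ht (by linarith) htx (by linarith))

theorem sector {x y z : ℝ} (hxy : x < y) (hyz : y < z) (hzx : z < x + π) (h1 : ¬ V K x y)
    (h2 : ¬ V K z (x + π)) (h3 : ¬ V K (y + π) (z + π)) {t : ℝ} {p : E2} (ht : F K t p)
    (htx : x ≤ t) (htz : t ≤ z) : Co K p (dir x) ∨ Co K p (dir (y + π)) := by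
  rcases le_or_gt y t with hy | hy
  · exact Or.inl (good hK hKc hi hxy hzx h1 h2 ht hy htz)
  rcases side hK hKc hi hyz hzx h2 ht htx hy.le with h | h
  · exact Or.inl h
  · right
    refine good hK hKc hi (x := y + π) (y := z + π) (z := x + 2 * π) (t := x + 2 * π)
      (by linarith) (by linarith) h3 ?_ (F_two_pi.2 h) (by linarith) le_rfl
    rw [show y + π + π = y + 2 * π by ring, V_two_pi]
    exact h1

/-- **The three directions.** -/
theorem illum {x y z : ℝ} (hxy : x < y) (hyz : y < z) (hzx : z < x + π) (h1 : ¬ V K x y)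
    (h2 : ¬ V K z (x + π)) (h3 : ¬ V K (y + π) (z + π)) :
    ∀ p ∈ K, Co K p (dir x) ∨ Co K p (dir z) ∨ Co K p (dir (y + π)) := by
  intro p hp
  by_cases hcon : Co K p (dir x)
  · exact Or.inl hcon
  obtain ⟨t, ht, ht1, ht2⟩ := exists_normal' hK hKc hi hp hcon
  rcases le_or_gt t (y + π) with h | h
  · -- the sector from `z` to `y + π`
    rcases sector hK hKc hi (x := z) (y := x + π) (z := y + π) (by linarith) (by linarith)
      (by linarith) h2 h3 (by
        rw [show x + π + π = x + 2 * π by ring, show y + π + π = y + 2 * π by ring, V_two_pi]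
        exact h1) ht (by linarith) h with h4 | h4
    · exact Or.inr (Or.inl h4)
    · rw [show x + π + π = x + 2 * π by ring, dir_two_pi] at h4
      exact Or.inl h4
  · rcases sector hK hKc hi (x := y + π) (y := z + π) (z := x + 2 * π) (by linarith) (by linarith)
      (by linarith) h3 (by
        rw [show y + π + π = y + 2 * π by ring, V_two_pi]
        exact h1) (by
        rw [show z + π + π = z + 2 * π by ring, show x + 2 * π + π = (x + π) + 2 * π by ring,
          V_two_pi]
        exact h2) ht h.le ht2 with h4 | h4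
    · exact Or.inr (Or.inr h4)
    · rw [show z + π + π = z + 2 * π by ring, dir_two_pi] at h4
      exact Or.inr (Or.inl h4)

end Pool.Agent.TH438.Levi
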