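import Mathlib
import Pool.Agent.TH438.Levi.Basic

set_option autoImplicit false

/-!
Planar convex bodies: three directions illuminate every planar convex body which is not a
parallelogram. Part 2.
-/

open Set Topology Real
open Pool.Agent.H843R3.Had2

namespace Pool.Agent.TH438.Levi

/-- no point has normals on both sides of the angle `s` -/
def S (K : Set E2) (s : ℝ) : Prop := ∀ x y, x < s → s < y → y < x + π → ¬ V K x y

variable {K : Set E2}

theorem V_self (hKc : IsCompact K) (hne : K.Nonempty) (x : ℝ) : V K x x := by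
  have hc : Continuous (ip x) := by unfold ip; fun_prop
  obtain ⟨p, hp, h⟩ := hKc.exists_isMaxOn hne hc.continuousOn
  exact ⟨p, ⟨hp, fun q hq => h hq⟩, ⟨hp, fun q hq => h hq⟩⟩

/-- the first angle from which `b` is reachable -/
theorem least (hKc : IsCompact K) (hi : (interior K).Nonempty) (b : ℝ) :
    ∃ t, b - π < t ∧ t ≤ b ∧ V K t b ∧ (∀ z, b - π ≤ z → z ≤ b → V K z b → t ≤ z) ∧ S K t := by
  have hcl : IsClosed {z : ℝ | V K z b} :=
    (V_closed hKc).preimage (by fun_prop : Continuous fun z : ℝ => (z, b))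
  have hT : IsCompact (Icc (b - π) b ∩ {z : ℝ | V K z b}) := isCompact_Icc.inter_right hcl
  have hTn : (Icc (b - π) b ∩ {z : ℝ | V K z b}).Nonempty :=
    ⟨b, ⟨by linarith [pi_pos], le_rfl⟩, V_self hKc (hi.mono interior_subset) b⟩
  obtain ⟨t, ⟨ht1, ht2⟩, ht3⟩ := hT.exists_isLeast hTn
  have ht2' : V K t b := ht2
  have ht4 : b - π < t := by
    refine lt_of_le_of_ne ht1.1 fun h => ?_
    rw [← h, show b = b - π + π by ring, add_sub_cancel_right] at ht2'
    exact not_V_pi hi ht2'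
  refine ⟨t, ht4, ht1.2, ht2', fun z h1 h2 h3 => ht3 ⟨⟨h1, h2⟩, h3⟩, ?_⟩
  intro x y hx hy hxy hV
  obtain ⟨p, hp1, hp2⟩ := hV
  obtain ⟨q, hq1, hq2⟩ := ht2'
  -- an angle `x' < t` with `V x' b`
  set x' : ℝ := max x (b - π) with hx'
  have hx'1 : x ≤ x' := le_max_left _ _
  have hx'2 : b - π ≤ x' := le_max_right _ _
  have hx't : x' < t := max_lt hx ht4
  have hp3 : F K x' p := F_mid hp1 hp2 hx'1 (hx't.le.trans hy.le) hxy
  have hpt : F K t p := F_mid hp1 hp2 hx.le hy.le hxy
  have hVb : V K x' b := by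
    rcases ht1.2.eq_or_lt with h | h
    · rw [h] at hpt
      exact ⟨p, hp3, hpt⟩
    · set y' : ℝ := min y b with hy'
      have hy1 : t < y' := lt_min hy h
      have hp4 : F K y' p := F_mid hp1 hp2 (hx.le.trans hy1.le) (min_le_left _ _) hxy
      have hq4 : F K y' q := F_mid hq1 hq2 hy1.le (min_le_right _ _) (by linarith)
      have hpq : p = q := F_unique hy1 (by
        have := min_le_right y b
        linarith) hpt hp4 hq1 hq4
      rw [hpq] at hp3
      exact ⟨q, hp3, hq2⟩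
  have h5 := ht3 ⟨⟨hx'2, hx't.le.trans ht1.2⟩, hVb⟩
  linarith

theorem S_exists (hKc : IsCompact K) (hi : (interior K).Nonempty) : ∃ s, S K s := by
  obtain ⟨t, _, _, _, _, h⟩ := least hKc hi 0
  exact ⟨t, h⟩

section

variable (hK : Convex ℝ K) (hKc : IsCompact K) (hi : (interior K).Nonempty)
  (hno : ¬ ∃ W : Finset E2, W.card ≤ 3 ∧ ∀ p ∈ K, ∃ w ∈ W, Co K p w)

include hK hKc hi hno

theorem dich {s z : ℝ} (hs : S K s) (h1 : s < z) (h2 : z < s + π) :
    V K (s + π) (z + π) ∨ V K z (s + π) := by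
  classical
  by_contra hcon
  push Not at hcon
  obtain ⟨hc1, hc2⟩ := hcon
  have ho1 : IsOpen {y : ℝ | ¬ V K (y + π) (z + π)} := by
    have := (V_closed hKc).preimage (by fun_prop : Continuous fun y : ℝ => (y + π, z + π))
    exact this.isOpen_compl
  have ho2 : IsOpen {x : ℝ | ¬ V K z (x + π)} := by
    have := (V_closed hKc).preimage (by fun_prop : Continuous fun x : ℝ => (z, x + π))
    exact this.isOpen_compl
  obtain ⟨δ1, hδ1, hb1⟩ := Metric.isOpen_iff.1 ho1 s hc1
  obtain ⟨δ2, hδ2, hb2⟩ := Metric.isOpen_iff.1 ho2 s hc2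
  obtain ⟨e, he, he1, he2, he3, he4, he5⟩ : ∃ e : ℝ, 0 < e ∧ e < δ1 ∧ e < δ2 ∧ s + e < z ∧
      z < s - e + π ∧ s + e < s - e + π := by
    set m := min (min δ1 δ2) (min (min (z - s) (s + π - z)) π) with hm
    have hm0 : 0 < m := by
      refine lt_min (lt_min hδ1 hδ2) (lt_min (lt_min ?_ ?_) pi_pos) <;> linarith
    have h3 : m ≤ δ1 := (min_le_left _ _).trans (min_le_left _ _)
    have h4 : m ≤ δ2 := (min_le_left _ _).trans (min_le_right _ _)
    have h5 : m ≤ z - s := ((min_le_right _ _).trans (min_le_left _ _)).trans (min_le_left _ _)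
    have h6 : m ≤ s + π - z := ((min_le_right _ _).trans (min_le_left _ _)).trans (min_le_right _ _)
    have h7 : m ≤ π := (min_le_right _ _).trans (min_le_right _ _)
    exact ⟨m / 3, by positivity, by linarith, by linarith, by linarith, by linarith, by linarith⟩
  have h3 : ¬ V K (s + e + π) (z + π) := by
    apply hb1
    rw [Metric.mem_ball, Real.dist_eq, add_sub_cancel_left, abs_of_pos he]
    exact he1
  have h4 : ¬ V K z (s - e + π) := by
    apply hb2
    rw [Metric.mem_ball, Real.dist_eq, show s - e - s = -e by ring, abs_neg, abs_of_pos he]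
    exact he2
  have h5 := hs (s - e) (s + e) (by linarith) (by linarith) he5
  have h6 := illum hK hKc hi (x := s - e) (y := s + e) (z := z) (by linarith) he3 he4 h5 h4 h3
  refine hno ⟨{dir (s - e), dir z, dir (s + e + π)}, Finset.card_le_three, fun p hp => ?_⟩
  rcases h6 p hp with h | h | h
  · exact ⟨_, by simp, h⟩
  · exact ⟨_, by simp, h⟩
  · exact ⟨_, by simp, h⟩

theorem step {s : ℝ} (hs : S K s) : ∃ t, s < t ∧ t < s + π ∧ V K t (s + π) ∧
    V K (s + π) (t + π) ∧ S K t ∧ ∀ z, s ≤ z → z ≤ s + π → V K z (s + π) → t ≤ z := by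
  obtain ⟨t, h1, h2, h3, h4, h5⟩ := least hKc hi (s + π)
  rw [add_sub_cancel_right] at h1 h4
  have h6 : V K (s + π) (t + π) := by
    have hcl : IsClosed {z : ℝ | V K (s + π) (z + π)} :=
      (V_closed hKc).preimage (by fun_prop : Continuous fun z : ℝ => (s + π, z + π))
    have h7 : Ioo s t ⊆ {z : ℝ | V K (s + π) (z + π)} := by
      intro z hz
      rcases dich hK hKc hi hno hs hz.1 (hz.2.trans_le h2) with h | h
      · exact h
      · exact absurd (h4 z hz.1.le (hz.2.le.trans h2) h) (not_le.2 hz.2)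
    have h8 : t ∈ closure (Ioo s t) := by
      rw [closure_Ioo h1.ne]
      exact ⟨h1.le, le_rfl⟩
    exact closure_minimal h7 hcl h8
  refine ⟨t, h1, lt_of_le_of_ne h2 ?_, h3, h6, h5, h4⟩
  intro h
  rw [h] at h6
  exact not_V_pi hi h6

/-- **The circumscribed parallelogram.** -/
theorem four : ∃ s t, s < t ∧ t < s + π ∧ V K s t ∧ V K t (s + π) ∧ V K (s + π) (t + π) ∧
    V K (t + π) (s + 2 * π) := by
  obtain ⟨s, hs⟩ := S_exists hKc hi
  obtain ⟨t, hst, hts, h1, h2, hSt, hmin⟩ := step hK hKc hi hno hs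
  obtain ⟨r, htr, hrt, h3, h4, hSr, hmin2⟩ := step hK hKc hi hno hSt
  have hr : r = s + π := by
    have hle : r ≤ s + π := hmin2 _ hts.le (by linarith) h2
    rcases hle.eq_or_lt with h | h
    · exact h
    · exfalso
      obtain ⟨p, hp1, hp2⟩ := h3
      obtain ⟨q, hq1, hq2⟩ := h1
      have hp3 : F K (s + π) p := F_mid hp1 hp2 h.le (by linarith) (by linarith)
      have hq3 : F K r q := F_mid hq1 hq2 htr.le h.le (by linarith)
      have hpq : p = q := F_unique h (by linarith) hp1 hp3 hq3 hq2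
      rw [hpq] at hp2
      exact no_pi hi hq1 hp2
  subst hr
  obtain ⟨r2, h5, h6, h7, h8, _, hmin3⟩ := step hK hKc hi hno hSr
  rw [show s + π + π = s + 2 * π by ring] at h4 h6 h7 h8 hmin3
  have hr2 : r2 = t + π := by
    have hle : r2 ≤ t + π := hmin3 _ (by linarith) (by linarith) h4
    rcases hle.eq_or_lt with h | h
    · exact h
    · exfalso
      obtain ⟨p, hp1, hp2⟩ := h7
      obtain ⟨q, hq1, hq2⟩ := h2
      have hp3 : F K (t + π) p := F_mid hp1 hp2 h.le (by linarith) (by linarith)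
      have hq3 : F K r2 q := F_mid hq1 hq2 h5.le h.le (by linarith)
      have hpq : p = q := F_unique h (by linarith) hp1 hp3 hq3 hq2
      rw [hpq] at hp2
      rw [show s + 2 * π = s + π + π by ring] at hp2
      exact no_pi hi hq1 hp2
  subst hr2
  rw [show t + π + π = t + 2 * π by ring, V_two_pi] at h8
  exact ⟨s, t, hst, hts, h8, h1, h2, h4⟩

end

/-- **Levi's theorem.** A planar convex body can be illuminated by three directions or is the
convex hull of (at most) four points. -/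
theorem levi (hK : Convex ℝ K) (hKc : IsCompact K) (hi : (interior K).Nonempty) :
    (∃ W : Finset E2, W.card ≤ 3 ∧ ∀ p ∈ K, ∃ w ∈ W, Co K p w) ∨
    ∃ Z : Finset E2, Z.card ≤ 4 ∧ K = convexHull ℝ (Z : Set E2) := by
  classical
  by_cases hno : ∃ W : Finset E2, W.card ≤ 3 ∧ ∀ p ∈ K, ∃ w ∈ W, Co K p w
  · exact Or.inl hno
  right
  obtain ⟨s, t, hst, hts, ⟨p1, h1, h1'⟩, ⟨p2, h2, h2'⟩, ⟨p3, h3, h3'⟩, ⟨p4, h4, h4'⟩⟩ :=
    four hK hKc hi hno
  rw [F_two_pi] at h4'
  refine ⟨{p1, p2, p3, p4}, Finset.card_le_four, ?_⟩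
  refine subset_antisymm ?_ (convexHull_min ?_ hK)
  swap
  · intro x hx
    simp only [Finset.coe_insert, Finset.coe_singleton, mem_insert_iff, mem_singleton_iff] at hx
    rcases hx with rfl | rfl | rfl | rfl
    · exact h1.1
    · exact h2.1
    · exact h3.1
    · exact h4.1
  intro q hq
  -- coordinates
  have hsin : sin (t - s) ≠ 0 :=
    (sin_pos_of_pos_of_lt_pi (by linarith) (by linarith)).ne'
  have a4 : ip s p4 = ip s p1 := le_antisymm (h1.2 _ h4.1) (h4'.2 _ h1.1)
  have a3 : ip s p3 = ip s p2 := by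
    have e1 := h3.2 _ h2.1
    have e2 := h2'.2 _ h3.1
    rw [ip_add_pi, ip_add_pi] at e1 e2
    linarith
  have b2 : ip t p2 = ip t p1 := le_antisymm (h1'.2 _ h2.1) (h2.2 _ h1.1)
  have b4 : ip t p4 = ip t p3 := by
    have e1 := h3'.2 _ h4.1
    have e2 := h4.2 _ h3.1
    rw [ip_add_pi, ip_add_pi] at e1 e2
    linarith
  have q1 := h1.2 q hq
  have q2 := h1'.2 q hq
  have q3 := h3.2 q hq
  have q4 := h3'.2 q hq
  rw [ip_add_pi, ip_add_pi] at q3 q4
  have hs13 : ip s p3 < ip s p1 := by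
    refine lt_of_le_of_ne (h1.2 _ h3.1) fun h => ?_
    refine no_pi hi (x := s) (p := p3) ⟨h3.1, fun x hx => ?_⟩ h3
    rw [h]; exact h1.2 x hx
  have ht13 : ip t p3 < ip t p1 := by
    refine lt_of_le_of_ne (h1'.2 _ h3.1) fun h => ?_
    refine no_pi hi (x := t) (p := p3) ⟨h3.1, fun x hx => ?_⟩ h3'
    rw [h]; exact h1'.2 x hx
  set a : ℝ := (ip s q - ip s p3) / (ip s p1 - ip s p3) with ha
  set b : ℝ := (ip t q - ip t p3) / (ip t p1 - ip t p3) with hb
  have ha0 : 0 ≤ a := div_nonneg (by linarith) (by linarith)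
  have ha1 : a ≤ 1 := (div_le_one (by linarith)).2 (by linarith)
  have hb0 : 0 ≤ b := div_nonneg (by linarith) (by linarith)
  have hb1 : b ≤ 1 := (div_le_one (by linarith)).2 (by linarith)
  have hsa : ip s q = a * ip s p1 + (1 - a) * ip s p3 := by
    have : a * (ip s p1 - ip s p3) = ip s q - ip s p3 :=
      div_mul_cancel₀ _ (by linarith)
    linarith
  have htb : ip t q = b * ip t p1 + (1 - b) * ip t p3 := by
    have : b * (ip t p1 - ip t p3) = ip t q - ip t p3 :=
      div_mul_cancel₀ _ (by linarith)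
    linarith
  have hq : q = (a * b) • p1 + ((1 - a) * b) • p2 + ((1 - a) * (1 - b)) • p3 +
      (a * (1 - b)) • p4 := by
    have hlin : ∀ (x c1 c2 c3 c4 : ℝ), ip x (c1 • p1 + c2 • p2 + c3 • p3 + c4 • p4) =
        c1 * ip x p1 + c2 * ip x p2 + c3 * ip x p3 + c4 * ip x p4 := by
      intro x c1 c2 c3 c4
      simp only [ip, PiLp.add_apply, PiLp.smul_apply, smul_eq_mul]
      ring
    refine ext_ip hsin ?_ ?_
    · rw [hlin, a4, ← a3, hsa]; ring
    · rw [hlin, b4, b2, htb]; ring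
  rw [hq]
  have hmem : ∀ x ∈ ({p1, p2, p3, p4} : Finset E2), x ∈ convexHull ℝ
      ((({p1, p2, p3, p4} : Finset E2)) : Set E2) := fun x hx => subset_convexHull ℝ _ hx
  have hcv := convex_convexHull ℝ ((({p1, p2, p3, p4} : Finset E2)) : Set E2)
  have m1 := hmem p1 (by simp)
  have m2 := hmem p2 (by simp)
  have m3 := hmem p3 (by simp)
  have m4 := hmem p4 (by simp)
  have e1 := hcv m1 m2 ha0 (by linarith : (0 : ℝ) ≤ 1 - a) (by ring)
  have e2 := hcv m4 m3 ha0 (by linarith : (0 : ℝ) ≤ 1 - a) (by ring)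
  have e3 := hcv e1 e2 hb0 (by linarith : (0 : ℝ) ≤ 1 - b) (by ring)
  convert e3 using 1
  module

end Pool.Agent.TH438.Levi
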